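import Pool.Agent.H998.HK.Spec4
import Pool.Agent.H773.HK.Moll
import Pool.Graph.R_pool_sql_team_39128cda.Lib.helper10_.Rellich

/-!
# Rellich-Kolmogorov compactness of tight sequences bounded in `H¹((ℝ³)^N)` (task REL)
-/

set_option autoImplicit false
set_option linter.unusedSectionVars false

noncomputable section

namespace Pool.Agent.H383.HK

open MeasureTheory Filter Topology Set Metric
open scoped ENNReal NNReal

section real

open Pool.Agent.Lib.helper10.Rellich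

variable {E : Type*} [NormedAddCommGroup E] [NormedSpace ℝ E] [FiniteDimensional ℝ E]
  [MeasurableSpace E] [BorelSpace E] (μ : Measure E) [μ.IsAddHaarMeasure]

/-- Rellich's theorem for tight sequences of test functions -/
theorem rellich_tight {φ : ℕ → E → ℝ}
    (hφ : ∀ n, ContDiff ℝ 1 (φ n)) (hcs : ∀ n, HasCompactSupport (φ n)) {C : ℝ} (hC : 0 ≤ C)
    (h2l : ∀ n, ∫⁻ x, ENNReal.ofReal (φ n x ^ 2) ∂μ ≤ ENNReal.ofReal C)
    (hDl : ∀ n, ∫⁻ x, ENNReal.ofReal (‖fderiv ℝ (φ n) x‖ ^ 2) ∂μ ≤ ENNReal.ofReal C)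
    (ht : ∀ η : ℝ≥0∞, 0 < η → ∃ R : ℝ, ∀ᶠ n in atTop,
      ∫⁻ x in (closedBall (0 : E) R)ᶜ, ENNReal.ofReal (φ n x ^ 2) ∂μ ≤ η) :
    ∃ κ : ℕ → ℕ, StrictMono κ ∧
      Tendsto (fun p : ℕ × ℕ => ∫⁻ x, ENNReal.ofReal ((φ (κ p.1) x - φ (κ p.2) x) ^ 2) ∂μ)
        atTop (𝓝 0) := by
  have hm : ∀ n, MemLp (φ n) 2 μ := fun n =>
    (hφ n).continuous.memLp_of_hasCompactSupport (hcs n)
  have h2 : ∀ n, ∫ x, φ n x ^ 2 ∂μ ≤ C := by
    intro n
    rw [integral_eq_lintegral_of_nonneg_ae (Eventually.of_forall fun _ => sq_nonneg _)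
      (hm n).integrable_sq.1]
    exact ENNReal.toReal_le_of_le_ofReal hC (h2l n)
  have : Fact ((2 : ℝ≥0∞) ≠ ⊤) := ⟨by simp⟩
  let y : ℕ → WeakDual ℝ (Lp ℝ 2 μ) := fun n =>
    StrongDual.toWeakDual (InnerProductSpace.toDual ℝ _ ((hm n).toLp _))
  have hy : ∀ n, y n ∈ WeakDual.toStrongDual ⁻¹' closedBall (0 : StrongDual ℝ (Lp ℝ 2 μ)) √C := by
    intro n
    simp only [y, mem_preimage, mem_closedBall_zero_iff]
    change ‖InnerProductSpace.toDual ℝ _ ((hm n).toLp _)‖ ≤ _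
    rw [LinearIsometryEquiv.norm_map]
    refine Real.le_sqrt_of_sq_le ?_
    rw [← real_inner_self_eq_norm_sq, L2.inner_def]
    refine le_trans (le_of_eq (integral_congr_ae ?_)) (h2 n)
    filter_upwards [(hm n).coeFn_toLp] with x hx
    simp [hx, sq]
  obtain ⟨z, -, κ, hκ, hz⟩ := WeakDual.isSeqCompact_closedBall ℝ _ 0 √C hy
  have hw : ∀ x ε, ∃ l, Tendsto (fun n => avg μ ε (φ (κ n)) x) atTop (𝓝 l) := by
    intro x ε
    have h1 := ((WeakDual.eval_continuous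
      (indicatorConstLp 2 (measurableSet_ball (x := x) (ε := ε)) measure_ball_lt_top.ne
        (1 : ℝ))).tendsto z).comp hz
    refine ⟨_, (h1.const_mul (μ (ball 0 ε))⁻¹.toReal).congr fun n => ?_⟩
    rw [avg_eq]
    congr 1
    change inner ℝ ((hm (κ n)).toLp _) _ = _
    rw [real_inner_comm, L2.inner_indicatorConstLp_one]
    exact setIntegral_congr_ae measurableSet_ball ((hm _).coeFn_toLp.mono fun _ h _ => h)
  refine ⟨κ, hκ, ?_⟩
  refine ENNReal.tendsto_nhds_zero.2 fun η hη => ?_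
  have hη2 : 0 < η / 2 := ENNReal.half_pos hη.ne'
  have hη4 : 0 < η / 2 / 2 := ENNReal.half_pos hη2.ne'
  obtain ⟨ε, hε, hεη⟩ : ∃ ε > 0, 6 * (ENNReal.ofReal (ε ^ 2) * ENNReal.ofReal C) ≤ η / 2 / 2 := by
    have t1 : Tendsto (fun ε : ℝ => ENNReal.ofReal (6 * (ε ^ 2 * C))) (𝓝[>] 0) (𝓝 0) := by
      have : Continuous fun ε : ℝ => ENNReal.ofReal (6 * (ε ^ 2 * C)) :=
        ENNReal.continuous_ofReal.comp (by fun_prop)
      simpa using (this.tendsto 0).mono_left nhdsWithin_le_nhds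
    obtain ⟨ε, h1, h2⟩ := ((t1.eventually (ge_mem_nhds hη4)).and
      self_mem_nhdsWithin).exists
    refine ⟨ε, h2, le_trans (le_of_eq ?_) h1⟩
    rw [ENNReal.ofReal_mul (by norm_num), ENNReal.ofReal_mul (sq_nonneg _)]
    simp
  obtain ⟨R, hR⟩ := ht (η / 2 / 2 / 4) (ENNReal.div_pos hη4.ne' (by norm_num))
  have a1 : Tendsto (fun p : ℕ × ℕ => p.1) atTop atTop := by
    rw [← prod_atTop_atTop_eq]; exact tendsto_fst
  have a2 : Tendsto (fun p : ℕ × ℕ => p.2) atTop atTop := by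
    rw [← prod_atTop_atTop_eq]; exact tendsto_snd
  have hA : ∀ n, Measurable (avg μ ε (φ n)) := fun n => avg_meas μ ε hε (hφ n).continuous
  have t2 : Tendsto (fun p : ℕ × ℕ => ∫⁻ x in closedBall 0 R,
      ENNReal.ofReal (3 * (avg μ ε (φ (κ p.1)) x - avg μ ε (φ (κ p.2)) x) ^ 2) ∂μ) atTop
      (𝓝 (∫⁻ _ in closedBall (0 : E) R, 0 ∂μ)) := by
    refine tendsto_lintegral_filter_of_dominated_convergence
      (fun _ => ENNReal.ofReal (12 * ((μ (ball 0 ε))⁻¹.toReal * C)))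
      (Eventually.of_forall fun p => by have := hA; fun_prop)
      (Eventually.of_forall fun p => Eventually.of_forall fun x => ?_) ?_
      (Eventually.of_forall fun x => ?_)
    · refine ENNReal.ofReal_le_ofReal ?_
      have b : ∀ n, avg μ ε (φ n) x ^ 2 ≤ (μ (ball 0 ε))⁻¹.toReal * C := fun n =>
        (avg_bound μ hε (hm n) x).trans (by gcongr; exact h2 n)
      nlinarith [b (κ p.1), b (κ p.2),
        sq_nonneg (avg μ ε (φ (κ p.1)) x + avg μ ε (φ (κ p.2)) x)]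
    · simp only [lintegral_const, MeasurableSet.univ, Measure.restrict_apply, univ_inter]
      exact ENNReal.mul_ne_top ENNReal.ofReal_ne_top measure_closedBall_lt_top.ne
    · obtain ⟨l, hl⟩ := hw x ε
      have := ENNReal.tendsto_ofReal ((((hl.comp a1).sub (hl.comp a2)).pow 2).const_mul 3)
      simpa using this
  rw [lintegral_zero] at t2
  filter_upwards [t2.eventually (ge_mem_nhds hη2),
    (hκ.tendsto_atTop.comp a1).eventually hR, (hκ.tendsto_atTop.comp a2).eventually hR]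
    with p hp hpa hpb
  simp only [Function.comp_apply] at hpa hpb
  set a := φ (κ p.1)
  set b := φ (κ p.2)
  have hac : Continuous a := (hφ _).continuous
  have hbc : Continuous b := (hφ _).continuous
  have hAa : Measurable (avg μ ε a) := hA _
  have hAb : Measurable (avg μ ε b) := hA _
  have e1 : ∫⁻ x, ENNReal.ofReal ((a x - b x) ^ 2) ∂μ ≤ ∫⁻ x,
      (3 * ENNReal.ofReal ((avg μ ε a x - a x) ^ 2) + 3 * ENNReal.ofReal ((avg μ ε b x - b x) ^ 2)
      + (closedBall 0 R).indicator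
        (fun x => ENNReal.ofReal (3 * (avg μ ε a x - avg μ ε b x) ^ 2)) x
      + (closedBall 0 R)ᶜ.indicator
        (fun x => 2 * ENNReal.ofReal (a x ^ 2) + 2 * ENNReal.ofReal (b x ^ 2)) x) ∂μ := by
    refine lintegral_mono fun x => ?_
    by_cases hx : x ∈ closedBall (0 : E) R
    · rw [indicator_of_mem hx, indicator_of_notMem (by simpa using hx), add_zero,
        ← ENNReal.ofReal_ofNat 3, ← ENNReal.ofReal_mul (by norm_num),
        ← ENNReal.ofReal_mul (by norm_num), ← ENNReal.ofReal_add (by positivity) (by positivity),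
        ← ENNReal.ofReal_add (by positivity) (by positivity)]
      refine ENNReal.ofReal_le_ofReal ?_
      nlinarith [sq_nonneg (avg μ ε a x - a x + (avg μ ε b x - b x)),
        sq_nonneg (avg μ ε a x - a x + (avg μ ε a x - avg μ ε b x)),
        sq_nonneg (avg μ ε b x - b x - (avg μ ε a x - avg μ ε b x))]
    · rw [indicator_of_mem (mem_compl hx), indicator_of_notMem hx, add_zero]
      refine le_trans ?_ le_add_self
      rw [← ENNReal.ofReal_ofNat 2, ← ENNReal.ofReal_mul (by norm_num),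
        ← ENNReal.ofReal_mul (by norm_num), ← ENNReal.ofReal_add (by positivity) (by positivity)]
      refine ENNReal.ofReal_le_ofReal ?_
      nlinarith [sq_nonneg (a x + b x)]
  refine e1.trans ?_
  have hmi : Measurable fun x => (closedBall (0 : E) R).indicator
        (fun x => ENNReal.ofReal (3 * (avg μ ε a x - avg μ ε b x) ^ 2)) x :=
    Measurable.indicator (by fun_prop) measurableSet_closedBall
  rw [lintegral_add_left (by fun_prop), lintegral_add_left (by fun_prop),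
    lintegral_add_left (by fun_prop),
    lintegral_const_mul' _ _ (by simp), lintegral_const_mul' _ _ (by simp),
    lintegral_indicator measurableSet_closedBall,
    lintegral_indicator measurableSet_closedBall.compl, lintegral_add_left (by fun_prop),
    lintegral_const_mul' _ _ (by simp), lintegral_const_mul' _ _ (by simp)]
  have b : ∀ n, ∫⁻ x, ENNReal.ofReal ((avg μ ε (φ n) x - φ n x) ^ 2) ∂μ
      ≤ ENNReal.ofReal (ε ^ 2) * ENNReal.ofReal C := fun n =>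
    (avg_est μ hε (hφ n) (hcs n)).trans (by gcongr; exact hDl n)
  calc _ ≤ (3 * (ENNReal.ofReal (ε ^ 2) * ENNReal.ofReal C)
        + 3 * (ENNReal.ofReal (ε ^ 2) * ENNReal.ofReal C) + η / 2) +
        (2 * (η / 2 / 2 / 4) + 2 * (η / 2 / 2 / 4)) := by
        gcongr
        · exact b _
        · exact b _
    _ = 6 * (ENNReal.ofReal (ε ^ 2) * ENNReal.ofReal C) + η / 2 + 4 * (η / 2 / 2 / 4) := by ring
    _ ≤ η / 2 / 2 + η / 2 + η / 2 / 2 := by
        gcongr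
        exact ENNReal.mul_div_le
    _ = (η / 2 / 2 + η / 2 / 2) + η / 2 := by ring
    _ = η := by rw [ENNReal.add_halves, ENNReal.add_halves]

end real

section main

open Pool.Agent.H998.HK
open Pool.Agent.H773.HK (WDF exists_test_approx sq_eq_eLpNorm memLp_two_iff enorm_add_sq_le
  enorm_sub_sq_le)

theorem decomp {N : ℕ} (h : Fin N → E3) : h = ∑ j, ∑ i, h j i • ee N j i := by
  funext j'
  ext i'
  simp [ee, Finset.sum_apply, Pi.single_apply, apply_ite, Finset.sum_ite_eq]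

theorem clm_le {N : ℕ} (L : (Fin N → E3) →L[ℝ] ℂ) : ‖L‖ ≤ ∑ j, ∑ i, ‖L (ee N j i)‖ := by
  refine L.opNorm_le_bound (Finset.sum_nonneg fun _ _ => Finset.sum_nonneg fun _ _ => norm_nonneg _)
    fun h => ?_
  conv_lhs => rw [decomp h]
  rw [map_sum, Finset.sum_mul]
  refine (norm_sum_le _ _).trans (Finset.sum_le_sum fun j _ => ?_)
  rw [map_sum, Finset.sum_mul]
  refine (norm_sum_le _ _).trans (Finset.sum_le_sum fun i _ => ?_)
  rw [map_smul, norm_smul, mul_comm]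
  refine mul_le_mul_of_nonneg_left ?_ (norm_nonneg _)
  exact (PiLp.norm_apply_le (h j) i).trans (norm_le_pi_norm h j)

theorem clm_sq_le {N : ℕ} (L : (Fin N → E3) →L[ℝ] ℂ) :
    ‖L‖ₑ ^ 2 ≤ ((N * 3 : ℕ) : ℝ≥0∞) * ∑ p : Fin N × Fin 3, ‖L (ee N p.1 p.2)‖ₑ ^ 2 := by
  have h1 : ‖L‖ ≤ ∑ p : Fin N × Fin 3, ‖L (ee N p.1 p.2)‖ := by
    rw [Fintype.sum_prod_type]
    exact clm_le L
  have h2 : ‖L‖ ^ 2 ≤ ((N * 3 : ℕ) : ℝ) * ∑ p : Fin N × Fin 3, ‖L (ee N p.1 p.2)‖ ^ 2 := by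
    refine (pow_le_pow_left₀ (norm_nonneg _) h1 2).trans ?_
    have := sq_sum_le_card_mul_sum_sq (s := (Finset.univ : Finset (Fin N × Fin 3)))
      (f := fun p => ‖L (ee N p.1 p.2)‖)
    simpa using this
  have h3 := ENNReal.ofReal_le_ofReal h2
  rw [ENNReal.ofReal_mul (Nat.cast_nonneg _), ENNReal.ofReal_natCast,
    ENNReal.ofReal_sum_of_nonneg (fun _ _ => sq_nonneg _), ENNReal.ofReal_pow (norm_nonneg _)] at h3
  simp only [ENNReal.ofReal_pow (norm_nonneg _), ofReal_norm] at h3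
  exact h3

variable {N : ℕ}

/-- one of the two components -/
theorem comp_part (L : ℂ →L[ℝ] ℝ) (hL : ∀ z, |L z| ≤ ‖z‖) {w : ℕ → (Fin N → E3) → ℂ}
    (hw : ∀ n, ContDiff ℝ 1 (w n)) (hcs : ∀ n, HasCompactSupport (w n)) {C : ℝ} (hC : 0 ≤ C)
    (h2 : ∀ n, ∫⁻ x, ‖w n x‖ₑ ^ 2 ≤ ENNReal.ofReal C)
    (hD : ∀ n, ∫⁻ x, ‖fderiv ℝ (w n) x‖ₑ ^ 2 ≤ ENNReal.ofReal C)
    (ht : ∀ η : ℝ≥0∞, 0 < η → ∃ R : ℝ, ∀ᶠ n in atTop,
      ∫⁻ x in (closedBall (0 : Fin N → E3) R)ᶜ, ‖w n x‖ₑ ^ 2 ≤ η) :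
    ∃ κ : ℕ → ℕ, StrictMono κ ∧
      Tendsto (fun p : ℕ × ℕ => ∫⁻ x, ENNReal.ofReal ((L (w (κ p.1) x) - L (w (κ p.2) x)) ^ 2))
        atTop (𝓝 0) := by
  have e1 : ∀ n x, ENNReal.ofReal (L (w n x) ^ 2) ≤ ‖w n x‖ₑ ^ 2 := by
    intro n x
    rw [← ofReal_norm, ← ENNReal.ofReal_pow (norm_nonneg _)]
    refine ENNReal.ofReal_le_ofReal ?_
    rw [← sq_abs]
    exact pow_le_pow_left₀ (abs_nonneg _) (hL _) 2
  have e2 : ∀ n x, ENNReal.ofReal (‖fderiv ℝ (fun x => L (w n x)) x‖ ^ 2) ≤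
      ‖fderiv ℝ (w n) x‖ₑ ^ 2 := by
    intro n x
    rw [← ofReal_norm, ← ENNReal.ofReal_pow (norm_nonneg _)]
    refine ENNReal.ofReal_le_ofReal (pow_le_pow_left₀ (norm_nonneg _) ?_ 2)
    have h1 : HasFDerivAt (w n) (fderiv ℝ (w n) x) x :=
      (((hw n).differentiable one_ne_zero) x).hasFDerivAt
    have h2 : fderiv ℝ (fun x => L (w n x)) x = L.comp (fderiv ℝ (w n) x) :=
      (L.hasFDerivAt.comp x h1).fderiv
    rw [h2]
    refine ContinuousLinearMap.opNorm_le_bound _ (norm_nonneg _) fun h => ?_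
    rw [ContinuousLinearMap.comp_apply, Real.norm_eq_abs]
    exact (hL _).trans ((fderiv ℝ (w n) x).le_opNorm h)
  refine rellich_tight volume (φ := fun n x => L (w n x)) (fun n => L.contDiff.comp (hw n))
    (fun n => ?_) hC (fun n => (lintegral_mono (e1 n)).trans (h2 n))
    (fun n => (lintegral_mono (e2 n)).trans (hD n)) fun η hη => ?_
  · exact (hcs n).comp_left (map_zero L)
  · obtain ⟨R, hR⟩ := ht η hη
    exact ⟨R, hR.mono fun n hn => (lintegral_mono (e1 n)).trans hn⟩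

theorem enorm_sq_eq (z : ℂ) : ‖z‖ₑ ^ 2 = ENNReal.ofReal (z.re ^ 2) + ENNReal.ofReal (z.im ^ 2) := by
  rw [← ofReal_norm, ← ENNReal.ofReal_pow (norm_nonneg _), ← ENNReal.ofReal_add (sq_nonneg _)
    (sq_nonneg _), Complex.sq_norm, Complex.normSq_apply]
  congr 1
  ring

theorem comp_tight {w : ℕ → (Fin N → E3) → ℂ}
    (hw : ∀ n, ContDiff ℝ 1 (w n)) (hcs : ∀ n, HasCompactSupport (w n)) {C : ℝ} (hC : 0 ≤ C)
    (h2 : ∀ n, ∫⁻ x, ‖w n x‖ₑ ^ 2 ≤ ENNReal.ofReal C)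
    (hD : ∀ n, ∫⁻ x, ‖fderiv ℝ (w n) x‖ₑ ^ 2 ≤ ENNReal.ofReal C)
    (ht : ∀ η : ℝ≥0∞, 0 < η → ∃ R : ℝ, ∀ᶠ n in atTop,
      ∫⁻ x in (closedBall (0 : Fin N → E3) R)ᶜ, ‖w n x‖ₑ ^ 2 ≤ η) :
    ∃ κ : ℕ → ℕ, StrictMono κ ∧
      Tendsto (fun p : ℕ × ℕ => ∫⁻ x, ‖w (κ p.1) x - w (κ p.2) x‖ₑ ^ 2) atTop (𝓝 0) := by
  obtain ⟨κ₁, hκ₁, h3⟩ := comp_part Complex.reCLM (fun z => Complex.abs_re_le_norm z) hw hcs hC h2
    hD ht
  obtain ⟨κ₂, hκ₂, h4⟩ := comp_part Complex.imCLM (fun z => Complex.abs_im_le_norm z)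
    (w := fun n => w (κ₁ n)) (fun n => hw _) (fun n => hcs _) hC (fun n => h2 _)
    (fun n => hD _) fun η hη => by
      obtain ⟨R, hR⟩ := ht η hη
      exact ⟨R, hκ₁.tendsto_atTop.eventually hR⟩
  refine ⟨fun n => κ₁ (κ₂ n), hκ₁.comp hκ₂, ?_⟩
  have h5 : Tendsto (fun p : ℕ × ℕ => (κ₂ p.1, κ₂ p.2)) atTop atTop := by
    rw [← prod_atTop_atTop_eq]
    exact (hκ₂.tendsto_atTop).prodMap (hκ₂.tendsto_atTop)
  have h6 := (h3.comp h5).add h4
  rw [add_zero] at h6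
  refine h6.congr fun p => ?_
  simp only [Function.comp_apply, Complex.reCLM_apply, Complex.imCLM_apply]
  rw [← lintegral_add_left]
  · refine lintegral_congr fun x => ?_
    rw [enorm_sq_eq, Complex.sub_re, Complex.sub_im]
  · have := fun n => (hw n).continuous
    have h7 : Continuous fun x => ((w (κ₁ (κ₂ p.1)) x).re - (w (κ₁ (κ₂ p.2)) x).re) ^ 2 := by
      fun_prop
    exact h7.measurable.ennreal_ofReal

theorem t_REL : S_REL := by
  intro N u D M hu hDm hwd hM hDM ht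
  have hM0 : 0 ≤ M := le_trans (integral_nonneg fun _ => sq_nonneg _) (hM 0)
  have conv : ∀ {f : (Fin N → E3) → ℂ}, MemLp f 2 → ∫⁻ x, ‖f x‖ₑ ^ 2 =
      ENNReal.ofReal (∫ x, ‖f x‖ ^ 2) := by
    intro f hf
    rw [ofReal_integral_eq_lintegral_ofReal hf.norm.integrable_sq
      (Eventually.of_forall fun _ => sq_nonneg _)]
    refine lintegral_congr fun x => ?_
    rw [ENNReal.ofReal_pow (norm_nonneg _), ofReal_norm]
  -- approximation
  have hε : ∀ k : ℕ, ENNReal.ofReal (1 / ((k : ℝ) + 1)) ≠ 0 := fun k => by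
    rw [ne_eq, ENNReal.ofReal_eq_zero, not_le]
    positivity
  have hap := fun k => exists_test_approx (ι := Fin N × Fin 3) (u := u k)
    (g := fun p => D k p.1 p.2) (e := fun p => ee N p.1 p.2) (hu k) (fun p => hDm k p.1 p.2)
    (fun p => hwd k p.1 p.2) (hε k)
  choose w hw1 hw2 hw3 hw4 using hap
  have hle1 : ∀ k : ℕ, ENNReal.ofReal (1 / ((k : ℝ) + 1)) ≤ 1 := fun k => by
    rw [← ENNReal.ofReal_one]
    refine ENNReal.ofReal_le_ofReal ?_
    rw [div_le_one (by positivity)]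
    linarith [(Nat.cast_nonneg k : (0 : ℝ) ≤ k)]
  have hwm : ∀ k, MemLp (w k) 2 := fun k =>
    (hw1 k).continuous.memLp_of_hasCompactSupport (hw2 k)
  have hb2 : ∀ k, ∫⁻ x, ‖w k x‖ₑ ^ 2 ≤ 2 + 2 * ENNReal.ofReal M := by
    intro k
    have h1 : ∀ x, ‖w k x‖ₑ ^ 2 ≤ 2 * ‖w k x - u k x‖ₑ ^ 2 + 2 * ‖u k x‖ₑ ^ 2 := by
      intro x
      have := enorm_add_sq_le (w k x - u k x) (u k x)
      rwa [sub_add_cancel] at this
    have hm1 : AEMeasurable (fun x => ‖w k x - u k x‖ₑ ^ 2) :=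
      (((hwm k).1.sub (hu k).1).enorm).pow_const 2
    refine (lintegral_mono h1).trans ?_
    rw [lintegral_add_left' (hm1.const_mul 2), lintegral_const_mul' _ _ (by simp),
      lintegral_const_mul' _ _ (by simp), conv (hu k)]
    gcongr
    · calc 2 * ∫⁻ x, ‖w k x - u k x‖ₑ ^ 2 ≤ 2 * 1 := by
            gcongr
            exact (hw3 k).trans (hle1 k)
        _ = 2 := mul_one _
    · exact hM k
  have hbD : ∀ k, ∫⁻ x, ‖fderiv ℝ (w k) x‖ₑ ^ 2 ≤
      ((N * 3 : ℕ) : ℝ≥0∞) * (((N * 3 : ℕ) : ℝ≥0∞) * (2 + 2 * ENNReal.ofReal M)) := by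
    intro k
    have hfc : Continuous (fderiv ℝ (w k)) := (hw1 k).continuous_fderiv (by simp)
    have hfc' : ∀ p : Fin N × Fin 3, Continuous fun x => fderiv ℝ (w k) x (ee N p.1 p.2) :=
      fun p => hfc.clm_apply continuous_const
    refine (lintegral_mono fun x => clm_sq_le (fderiv ℝ (w k) x)).trans ?_
    rw [lintegral_const_mul' _ _ (ENNReal.natCast_ne_top _), lintegral_finsetSum _
      (fun p _ => ((hfc' p).measurable.enorm.pow_const 2))]
    gcongr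
    have h1 : ∀ p : Fin N × Fin 3, ∫⁻ x, ‖fderiv ℝ (w k) x (ee N p.1 p.2)‖ₑ ^ 2 ≤
        2 + 2 * ENNReal.ofReal M := by
      intro p
      have h1 : ∀ x, ‖fderiv ℝ (w k) x (ee N p.1 p.2)‖ₑ ^ 2 ≤
          2 * ‖fderiv ℝ (w k) x (ee N p.1 p.2) - D k p.1 p.2 x‖ₑ ^ 2 +
          2 * ‖D k p.1 p.2 x‖ₑ ^ 2 := by
        intro x
        have := enorm_add_sq_le (fderiv ℝ (w k) x (ee N p.1 p.2) - D k p.1 p.2 x)
          (D k p.1 p.2 x)
        rwa [sub_add_cancel] at this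
      have hm1 : AEMeasurable (fun x => ‖fderiv ℝ (w k) x (ee N p.1 p.2) -
          D k p.1 p.2 x‖ₑ ^ 2) :=
        (((hfc' p).aestronglyMeasurable.sub (hDm k p.1 p.2).1).enorm).pow_const 2
      refine (lintegral_mono h1).trans ?_
      rw [lintegral_add_left' (hm1.const_mul 2), lintegral_const_mul' _ _ (by simp),
        lintegral_const_mul' _ _ (by simp), conv (hDm k p.1 p.2)]
      gcongr
      · calc 2 * ∫⁻ x, ‖fderiv ℝ (w k) x (ee N p.1 p.2) - D k p.1 p.2 x‖ₑ ^ 2 ≤ 2 * 1 := by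
              gcongr
              exact (hw4 k p).trans (hle1 k)
          _ = 2 := mul_one _
      · exact hDM k p.1 p.2
    refine (Finset.sum_le_sum fun p _ => h1 p).trans ?_
    rw [Finset.sum_const, nsmul_eq_mul]
    simp
  -- tightness
  have htw : ∀ η : ℝ≥0∞, 0 < η → ∃ R : ℝ, ∀ᶠ n in atTop,
      ∫⁻ x in (closedBall (0 : Fin N → E3) R)ᶜ, ‖w n x‖ₑ ^ 2 ≤ η := by
    intro η hη
    obtain ⟨r, hr0, hr⟩ : ∃ r : ℝ, 0 < r ∧ ENNReal.ofReal (4 * r) ≤ η := by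
      rcases eq_or_ne η ⊤ with h | h
      · exact ⟨1, one_pos, h ▸ le_top⟩
      · refine ⟨η.toReal / 4, by have := ENNReal.toReal_pos hη.ne' h; positivity, ?_⟩
        rw [mul_div_cancel₀ _ (by norm_num), ENNReal.ofReal_toReal h]
    obtain ⟨R, hR⟩ := ht r hr0
    refine ⟨R, ?_⟩
    have h1 : ∀ᶠ n : ℕ in atTop, 1 / ((n : ℝ) + 1) ≤ r :=
      (tendsto_one_div_add_atTop_nhds_zero_nat.eventually (ge_mem_nhds hr0))
    filter_upwards [h1] with n hn
    have hset : (closedBall (0 : Fin N → E3) R)ᶜ = {x : Fin N → E3 | R < ‖x‖} := by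
      ext x
      simp
    rw [hset]
    have h1 : ∀ x, ‖w n x‖ₑ ^ 2 ≤ 2 * ‖w n x - u n x‖ₑ ^ 2 + 2 * ‖u n x‖ₑ ^ 2 := by
      intro x
      have := enorm_add_sq_le (w n x - u n x) (u n x)
      rwa [sub_add_cancel] at this
    have hm1 : AEMeasurable (fun x => ‖w n x - u n x‖ₑ ^ 2)
        (volume.restrict {x : Fin N → E3 | R < ‖x‖}) :=
      ((((hwm n).1.sub (hu n).1).enorm).pow_const 2).restrict
    refine (lintegral_mono h1).trans ?_
    rw [lintegral_add_left' (hm1.const_mul 2), lintegral_const_mul' _ _ (by simp),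
      lintegral_const_mul' _ _ (by simp)]
    have h2 : ∫⁻ x in {x : Fin N → E3 | R < ‖x‖}, ‖w n x - u n x‖ₑ ^ 2 ≤ ENNReal.ofReal r :=
      (setLIntegral_le_lintegral _ _).trans ((hw3 n).trans (ENNReal.ofReal_le_ofReal hn))
    have h3 : ∫⁻ x in {x : Fin N → E3 | R < ‖x‖}, ‖u n x‖ₑ ^ 2 ≤ ENNReal.ofReal r := by
      refine le_trans (le_of_eq ?_) (ENNReal.ofReal_le_ofReal (hR n))
      rw [ofReal_integral_eq_lintegral_ofReal ((hu n).norm.integrable_sq.restrict)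
        (Eventually.of_forall fun _ => sq_nonneg _)]
      refine lintegral_congr fun x => ?_
      rw [ENNReal.ofReal_pow (norm_nonneg _), ofReal_norm]
    refine le_trans (add_le_add (mul_le_mul_right h2 2) (mul_le_mul_right h3 2)) ?_
    refine le_trans (le_of_eq ?_) hr
    rw [ENNReal.ofReal_mul (by norm_num), ENNReal.ofReal_ofNat]
    ring
  set C : ℝ≥0∞ := (2 + 2 * ENNReal.ofReal M) +
    ((N * 3 : ℕ) : ℝ≥0∞) * (((N * 3 : ℕ) : ℝ≥0∞) * (2 + 2 * ENNReal.ofReal M)) with hCdef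
  have hCt : C ≠ ⊤ := by
    rw [hCdef]
    finiteness
  have hCr : ENNReal.ofReal C.toReal = C := ENNReal.ofReal_toReal hCt
  obtain ⟨κ, hκ, hκt⟩ := comp_tight (w := w) (fun n => (hw1 n).of_le (by simp)) hw2
    (ENNReal.toReal_nonneg (a := C)) (fun n => by rw [hCr]; exact (hb2 n).trans le_self_add)
    (fun n => by rw [hCr]; exact (hbD n).trans le_add_self) htw
  -- the limit
  have hdist : ∀ n m, edist ((hwm n).toLp (w n)) ((hwm m).toLp (w m)) ^ 2 =
      ∫⁻ x, ‖w n x - w m x‖ₑ ^ 2 := by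
    intro n m
    rw [Lp.edist_toLp_toLp, sq_eq_eLpNorm (fun x => w n x - w m x)]
    rfl
  have hcau : CauchySeq fun n => (hwm (κ n)).toLp (w (κ n)) := by
    rw [EMetric.cauchySeq_iff]
    intro ε hε
    have hε2 : 0 < ε ^ 2 := ENNReal.pow_pos hε 2
    have h1 := hκt.eventually (gt_mem_nhds hε2)
    rw [← prod_atTop_atTop_eq, eventually_prod_iff] at h1
    obtain ⟨pa, hpa, pb, hpb, h2⟩ := h1
    obtain ⟨K, hK⟩ := eventually_atTop.1 (hpa.and hpb)
    refine ⟨K, fun m hm n hn => ?_⟩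
    have h3 := h2 (hK m hm).1 (hK n hn).2
    simp only at h3
    rw [← hdist] at h3
    exact lt_of_pow_lt_pow_left' 2 h3
  obtain ⟨l, hl⟩ := cauchySeq_tendsto_of_complete hcau
  refine ⟨κ, l, hκ, Lp.memLp l, ?_⟩
  have hl2 : Tendsto (fun n => ∫⁻ x, ‖w (κ n) x - l x‖ₑ ^ 2) atTop (𝓝 0) := by
    have h1 := tendsto_iff_edist_tendsto_0.1 hl
    have h2 := ((ENNReal.continuous_pow 2).tendsto 0).comp h1
    simp only [ne_eq, OfNat.ofNat_ne_zero, not_false_eq_true, zero_pow] at h2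
    refine h2.congr fun n => ?_
    simp only [Function.comp_apply]
    rw [Lp.edist_def, sq_eq_eLpNorm (fun x => w (κ n) x - l x)]
    congr 1
    refine eLpNorm_congr_ae ?_
    filter_upwards [(hwm (κ n)).coeFn_toLp] with x hx
    simp [hx]
  have hfin : Tendsto (fun n => ∫⁻ x, ‖u (κ n) x - l x‖ₑ ^ 2) atTop (𝓝 0) := by
    have h0 : Tendsto (fun n : ℕ => ENNReal.ofReal (1 / ((κ n : ℝ) + 1))) atTop (𝓝 0) := by
      have h1 := ENNReal.tendsto_ofReal (tendsto_one_div_add_atTop_nhds_zero_nat (𝕜 := ℝ))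
      rw [ENNReal.ofReal_zero] at h1
      exact h1.comp hκ.tendsto_atTop
    have h1 := (ENNReal.Tendsto.const_mul h0 (Or.inr (by norm_num : (2 : ℝ≥0∞) ≠ ∞))).add
      (ENNReal.Tendsto.const_mul hl2 (Or.inr (by norm_num : (2 : ℝ≥0∞) ≠ ∞)))
    rw [mul_zero, add_zero] at h1
    refine tendsto_of_tendsto_of_tendsto_of_le_of_le tendsto_const_nhds h1 (fun _ => bot_le)
      fun n => ?_
    have h2 : ∀ x, ‖u (κ n) x - l x‖ₑ ^ 2 ≤
        2 * ‖w (κ n) x - u (κ n) x‖ₑ ^ 2 + 2 * ‖w (κ n) x - l x‖ₑ ^ 2 := by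
      intro x
      have := enorm_sub_sq_le (w (κ n) x - l x) (w (κ n) x - u (κ n) x)
      rw [sub_sub_sub_cancel_left] at this
      rw [add_comm]
      exact this
    have hm1 : AEMeasurable (fun x => ‖w (κ n) x - u (κ n) x‖ₑ ^ 2) :=
      (((hwm (κ n)).1.sub (hu (κ n)).1).enorm).pow_const 2
    refine (lintegral_mono h2).trans ?_
    rw [lintegral_add_left' (hm1.const_mul 2), lintegral_const_mul' _ _ (by simp),
      lintegral_const_mul' _ _ (by simp)]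
    gcongr
    exact hw3 (κ n)
  refine ((ENNReal.tendsto_toReal ENNReal.zero_ne_top).comp hfin).congr fun n => ?_
  simp only [Function.comp_apply]
  have h9 := conv ((hu (κ n)).sub (Lp.memLp l))
  simp only [Pi.sub_apply] at h9
  rw [h9, ENNReal.toReal_ofReal (integral_nonneg fun _ => sq_nonneg _)]

end main

end Pool.Agent.H383.HK
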